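import Mathlib

/-!
# T5b, (S3'): the numbers of the pairs across SPLIT, middle distance, abstract form
-/

set_option autoImplicit false

namespace Pool.Agent.Helper55.T5b

open Real

/-! ## exponents -/

theorem ex_i {lam D W l1 : ℝ} (hlam : 13 ≤ lam) (hW : 0 ≤ W) (hl1 : 11 / 1024 * W ≤ l1)
    (hD : 7 / 20 * W ≤ D) : lam * (50001 / 100000 * D) + -(lam * (D + l1)) ≤ -(3 / 50 * W) := by
  have h1 : lam * (50001 / 100000 * D) + -(lam * (D + l1)) =
      -(lam * (49999 / 100000 * D + l1)) := by ring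
  rw [h1]
  have h2 : (1 / 20 : ℝ) * W ≤ 49999 / 100000 * D + l1 := by linarith
  have h3 : 13 * ((1 / 20 : ℝ) * W) ≤ lam * (49999 / 100000 * D + l1) :=
    mul_le_mul hlam h2 (by positivity) (by linarith)
  linarith

theorem ex_ii {lam D W l1 : ℝ} (hlam : 13 ≤ lam) (hW : 0 ≤ W) (hl1 : 11 / 1024 * W ≤ l1)
    (hD : 7 / 20 * W ≤ D) : lam * (W / 2 - D) + (lam * (50001 / 100000 * D) +
      -(lam * (D + l1))) ≤ -(3 / 50 * W) := by
  have h1 : lam * (W / 2 - D) + (lam * (50001 / 100000 * D) + -(lam * (D + l1))) =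
      -(lam * (149999 / 100000 * D + l1 - W / 2)) := by ring
  rw [h1]
  have h2 : (1 / 50 : ℝ) * W ≤ 149999 / 100000 * D + l1 - W / 2 := by linarith
  have h3 : 13 * ((1 / 50 : ℝ) * W) ≤ lam * (149999 / 100000 * D + l1 - W / 2) :=
    mul_le_mul hlam h2 (by positivity) (by linarith)
  linarith

theorem ex_iii {lam D W l1 : ℝ} (hlam : 13 ≤ lam) (hW : 0 ≤ W) (hl1 : 11 / 1024 * W ≤ l1)
    (hD : D ≤ W - l1) : lam * (50001 / 100000 * D) + -(lam * (W / 2)) ≤ -(3 / 50 * W) := by
  have h1 : lam * (50001 / 100000 * D) + -(lam * (W / 2)) =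
      -(lam * (W / 2 - 50001 / 100000 * D)) := by ring
  rw [h1]
  have h2 : (53 / 10000 : ℝ) * W ≤ W / 2 - 50001 / 100000 * D := by
    have : 50001 / 100000 * D ≤ 50001 / 100000 * (W - l1) := by linarith
    linarith
  have h3 : 13 * ((53 / 10000 : ℝ) * W) ≤ lam * (W / 2 - 50001 / 100000 * D) :=
    mul_le_mul hlam h2 (by positivity) (by linarith)
  linarith

theorem ex_iii' {lam D W l1 : ℝ} (hlam : 13 ≤ lam) (hW : 0 ≤ W) (hl1 : 11 / 1024 * W ≤ l1)
    (hD : W - l1 ≤ D) : lam * (50001 / 100000 * D) + (lam * (W - D - l1) + -(lam * (W / 2))) ≤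
      -(3 / 50 * W) := by
  have h1 : lam * (50001 / 100000 * D) + (lam * (W - D - l1) + -(lam * (W / 2))) =
      -(lam * (49999 / 100000 * D + l1 - W / 2)) := by ring
  rw [h1]
  have h2 : (53 / 10000 : ℝ) * W ≤ 49999 / 100000 * D + l1 - W / 2 := by
    have : 49999 / 100000 * (W - l1) ≤ 49999 / 100000 * D := by linarith
    linarith
  have h3 : 13 * ((53 / 10000 : ℝ) * W) ≤ lam * (49999 / 100000 * D + l1 - W / 2) :=
    mul_le_mul hlam h2 (by positivity) (by linarith)
  linarith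

theorem ex_iv {lam D W : ℝ} (hlam : 13 ≤ lam) (hW : 0 ≤ W)
    (hD : 7 / 20 * W ≤ D) : lam * (W / 2 - D) + (lam * (50001 / 100000 * D) +
      -(lam * (W / 2))) ≤ -(3 / 50 * W) := by
  have h1 : lam * (W / 2 - D) + (lam * (50001 / 100000 * D) + -(lam * (W / 2))) =
      -(lam * (49999 / 100000 * D)) := by ring
  rw [h1]
  have h2 : (1 / 50 : ℝ) * W ≤ 49999 / 100000 * D := by linarith
  have h3 : 13 * ((1 / 50 : ℝ) * W) ≤ lam * (49999 / 100000 * D) :=
    mul_le_mul hlam h2 (by positivity) (by linarith)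
  linarith

/-- the four terms -/
theorem four_terms {lam D W l1 : ℝ} (hlam : 13 ≤ lam) (hW : 0 ≤ W) (hl1 : 11 / 1024 * W ≤ l1)
    (hD : 7 / 20 * W ≤ D) :
    (1 + exp (lam * (W / 2 - D))) * (exp (lam * (50001 / 100000 * D)) *
      (exp (-(lam * (D + l1))) + min 1 (exp (lam * (W - D - l1))) * exp (-(lam * (W / 2))))) ≤
        4 * exp (-(3 / 50 * W)) := by
  have a1 : exp (lam * (50001 / 100000 * D)) * exp (-(lam * (D + l1))) ≤ exp (-(3 / 50 * W)) := by
    rw [← exp_add]
    exact exp_le_exp.2 (ex_i hlam hW hl1 hD)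
  have a2 : exp (lam * (W / 2 - D)) * (exp (lam * (50001 / 100000 * D)) *
      exp (-(lam * (D + l1)))) ≤ exp (-(3 / 50 * W)) := by
    rw [← exp_add, ← exp_add]
    exact exp_le_exp.2 (ex_ii hlam hW hl1 hD)
  have a3 : exp (lam * (50001 / 100000 * D)) * (min 1 (exp (lam * (W - D - l1))) *
      exp (-(lam * (W / 2)))) ≤ exp (-(3 / 50 * W)) := by
    rcases le_total D (W - l1) with h | h
    · refine le_trans (mul_le_mul_of_nonneg_left (mul_le_mul_of_nonneg_right (min_le_left _ _)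
        (exp_pos _).le) (exp_pos _).le) ?_
      rw [one_mul, ← exp_add]
      exact exp_le_exp.2 (ex_iii hlam hW hl1 h)
    · refine le_trans (mul_le_mul_of_nonneg_left (mul_le_mul_of_nonneg_right (min_le_right _ _)
        (exp_pos _).le) (exp_pos _).le) ?_
      rw [← exp_add, ← exp_add]
      exact exp_le_exp.2 (ex_iii' hlam hW hl1 h)
  have a4 : exp (lam * (W / 2 - D)) * (exp (lam * (50001 / 100000 * D)) *
      (min 1 (exp (lam * (W - D - l1))) * exp (-(lam * (W / 2))))) ≤ exp (-(3 / 50 * W)) := by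
    refine le_trans (mul_le_mul_of_nonneg_left (mul_le_mul_of_nonneg_left
      (mul_le_mul_of_nonneg_right (min_le_left _ _) (exp_pos _).le) (exp_pos _).le)
      (exp_pos _).le) ?_
    rw [one_mul, ← exp_add, ← exp_add]
    exact exp_le_exp.2 (ex_iv hlam hW hD)
  calc _ = exp (lam * (50001 / 100000 * D)) * exp (-(lam * (D + l1))) +
        exp (lam * (W / 2 - D)) * (exp (lam * (50001 / 100000 * D)) * exp (-(lam * (D + l1)))) +
        exp (lam * (50001 / 100000 * D)) * (min 1 (exp (lam * (W - D - l1))) *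
          exp (-(lam * (W / 2)))) +
        exp (lam * (W / 2 - D)) * (exp (lam * (50001 / 100000 * D)) *
          (min 1 (exp (lam * (W - D - l1))) * exp (-(lam * (W / 2))))) := by ring
    _ ≤ exp (-(3 / 50 * W)) + exp (-(3 / 50 * W)) + exp (-(3 / 50 * W)) +
        exp (-(3 / 50 * W)) := by linarith
    _ = _ := by ring

/-! ## the factors -/

theorem factor1 {Q Q' R' J J' F Ne Ne' : ℝ} (hQ : 0 < Q) (hQ' : 1 ≤ Q') (hJ : 0 < J)
    (hJ' : 0 ≤ J') (hR' : 0 ≤ R')
    (h3 : F ≤ J * sqrt Q') (h4 : Ne ≤ Ne' * Q) (h6 : Ne' ≤ J) :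
    1 + (((Ne + Ne' * Q) + F * Q + 17 * (R' * Q * J')) / (J * Q) + 1) / sqrt Q' ≤
      17 * (1 + R' * J' / (J * sqrt Q')) := by
  have hs : 1 ≤ sqrt Q' := by rw [one_le_sqrt]; exact hQ'
  have hs0 : 0 < sqrt Q' := by linarith
  have e1 : ((Ne + Ne' * Q) + F * Q + 17 * (R' * Q * J')) / (J * Q) ≤
      2 + sqrt Q' + 17 * (R' * J' / J) := by
    rw [div_le_iff₀ (by positivity)]
    have e2 : (2 + sqrt Q' + 17 * (R' * J' / J)) * (J * Q) =
        2 * (J * Q) + (J * sqrt Q') * Q + 17 * (R' * Q * J') := by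
      field_simp
    rw [e2]
    have e3 : Ne' * Q ≤ J * Q := mul_le_mul_of_nonneg_right h6 hQ.le
    have e4 : F * Q ≤ (J * sqrt Q') * Q := mul_le_mul_of_nonneg_right h3 hQ.le
    linarith
  have e5 : (((Ne + Ne' * Q) + F * Q + 17 * (R' * Q * J')) / (J * Q) + 1) / sqrt Q' ≤
      4 + 17 * (R' * J' / (J * sqrt Q')) := by
    rw [div_le_iff₀ hs0]
    have e6 : (4 + 17 * (R' * J' / (J * sqrt Q'))) * sqrt Q' =
        4 * sqrt Q' + 17 * (R' * J' / J) := by
      field_simp
    rw [e6]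
    linarith
  have e7 : 0 ≤ R' * J' / (J * sqrt Q') := by positivity
  linarith

theorem factor2 {Q Q' R' J J' F Ne Ne' : ℝ} (hQ : 0 < Q) (hQ' : 1 ≤ Q')
    (hJ' : 0 < J') (hR' : 0 ≤ R') (hF : 0 < F)
    (hJF : J ≤ F) (h4 : Ne ≤ Ne' * Q) (h6 : Ne' ≤ J) :
    (1 + (min ((Ne + Ne' * Q) + F * Q) (17 * (R' * Q * J')) / (Q * J') + 1) / sqrt Q') *
      (J' / F) ≤ 17 * (J' / F + min 1 (R' * J' / F) / sqrt Q') := by
  have hs : 1 ≤ sqrt Q' := by rw [one_le_sqrt]; exact hQ'
  have hs0 : 0 < sqrt Q' := by linarith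
  have e1 : min ((Ne + Ne' * Q) + F * Q) (17 * (R' * Q * J')) ≤
      17 * (min 1 (R' * J' / F) * (F * Q)) := by
    rcases le_total 1 (R' * J' / F) with h | h
    · rw [min_eq_left h, one_mul]
      refine (min_le_left _ _).trans ?_
      have e3 : Ne' * Q ≤ F * Q := mul_le_mul_of_nonneg_right (h6.trans hJF) hQ.le
      have e4 : 0 ≤ F * Q := by positivity
      linarith
    · rw [min_eq_right h]
      refine (min_le_right _ _).trans (le_of_eq ?_)
      field_simp
  have e2 : min ((Ne + Ne' * Q) + F * Q) (17 * (R' * Q * J')) / (Q * J') ≤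
      17 * (min 1 (R' * J' / F) * (F / J')) := by
    rw [div_le_iff₀ (by positivity)]
    refine e1.trans (le_of_eq ?_)
    field_simp
  have e3 : (1 + (min ((Ne + Ne' * Q) + F * Q) (17 * (R' * Q * J')) / (Q * J') + 1) / sqrt Q') ≤
      2 + 17 * (min 1 (R' * J' / F) * (F / J')) / sqrt Q' := by
    have e4 : (min ((Ne + Ne' * Q) + F * Q) (17 * (R' * Q * J')) / (Q * J') + 1) / sqrt Q' ≤
        1 + 17 * (min 1 (R' * J' / F) * (F / J')) / sqrt Q' := by
      rw [add_div, add_comm]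
      refine add_le_add ?_ ?_
      · rw [div_le_one hs0]
        exact hs
      · exact div_le_div_of_nonneg_right e2 hs0.le
    linarith
  refine (mul_le_mul_of_nonneg_right e3 (by positivity)).trans ?_
  have e5 : (2 + 17 * (min 1 (R' * J' / F) * (F / J')) / sqrt Q') * (J' / F) =
      2 * (J' / F) + 17 * (min 1 (R' * J' / F) / sqrt Q') := by
    field_simp
  rw [e5]
  have : 0 ≤ J' / F := by positivity
  linarith

theorem factor3 {Q F Ne Ne' nY C Lam q R0 : ℝ} (hQ : 1 ≤ Q) (hF : 0 < F)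
    (hR0 : 0 ≤ R0) (hC : 0 ≤ C) (hLam : 0 ≤ Lam) (hnY : 0 ≤ nY)
    (h4 : Ne ≤ Ne' * Q) (h5 : F ≤ Ne' * sqrt Q) (h9 : nY ≤ sqrt Q) (hq : Q ≤ q) {mu : ℝ}
    (hmu : mu ≤ 1 / Q) (hmu0 : 0 ≤ mu) :
    (R0 * (1 + ((Ne + Ne' * Q) / F + 1) / sqrt Q)) * (nY * (C * Lam * (mu + 1 / q))) ≤
      8 * R0 * C * (Lam * Ne' / F) := by
  have hQ0 : 0 < Q := by linarith
  have hs : 1 ≤ sqrt Q := by rw [one_le_sqrt]; exact hQ
  have hs0 : 0 < sqrt Q := by linarith
  have hss : sqrt Q * sqrt Q = Q := mul_self_sqrt hQ0.le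
  have e1 : ((Ne + Ne' * Q) / F + 1) / sqrt Q ≤ 2 * (Ne' * sqrt Q / F) + 1 := by
    rw [add_div]
    refine add_le_add ?_ ?_
    · rw [div_div, div_le_iff₀ (by positivity)]
      have e2 : 2 * (Ne' * sqrt Q / F) * (F * sqrt Q) = 2 * (Ne' * (sqrt Q * sqrt Q)) := by
        field_simp
      rw [e2, hss]
      linarith
    · rw [div_le_one hs0]
      exact hs
  have e3 : 1 ≤ Ne' * sqrt Q / F := by
    rw [le_div_iff₀ hF, one_mul]
    exact h5
  have e4 : R0 * (1 + ((Ne + Ne' * Q) / F + 1) / sqrt Q) ≤ R0 * (4 * (Ne' * sqrt Q / F)) :=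
    mul_le_mul_of_nonneg_left (by linarith) hR0
  have e5 : mu + 1 / q ≤ 2 * (1 / Q) := by
    have : 1 / q ≤ 1 / Q := one_div_le_one_div_of_le hQ0 hq
    linarith
  have hq0 : 0 < q := by linarith
  have e6 : nY * (C * Lam * (mu + 1 / q)) ≤ sqrt Q * (C * Lam * (2 * (1 / Q))) := by
    refine mul_le_mul h9 (mul_le_mul_of_nonneg_left e5 (by positivity)) (by positivity) hs0.le
  have e8 : 0 ≤ nY * (C * Lam * (mu + 1 / q)) := by positivity
  refine (mul_le_mul e4 e6 e8 (by positivity)).trans (le_of_eq ?_)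
  have e7 : (1 : ℝ) / Q = 1 / (sqrt Q * sqrt Q) := by rw [hss]
  rw [e7]
  field_simp
  ring

set_option maxHeartbeats 1000000 in
/-- **the numbers of (S3')**, abstract form: `Ne`, `Ne'` = ranges of the joint codes, `F` = front
of the newborn level, `J`, `J'` = units, `Q` = modulus of the newborn level, `Q'` = modulus of the
outermost level of the lower state, `R'` = size of the windows of the lower state -/
theorem num_real {lam D W l1 β κ cap R0 C Lam nY Q Q' R' J J' F Ne Ne' q : ℝ}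
    (hlam : 13 ≤ lam) (hW : 0 ≤ W) (hl1 : 11 / 1024 * W ≤ l1) (hD : 7 / 20 * W ≤ D)
    (hQ : 1 ≤ Q) (hQ' : 1 ≤ Q') (hJ : 0 < J) (hJ' : 0 < J') (hF : 0 < F) (hNe : 0 < Ne)
    (hNe' : 0 < Ne') (hR' : 0 ≤ R') (hcap : 0 ≤ cap) (hR0 : 0 ≤ R0) (hC : 0 ≤ C)
    (hLam : 0 ≤ Lam) (hnY : 0 ≤ nY)
    (h1 : J' * exp (lam * D) ≤ J) (h2 : J * exp (lam * l1) ≤ F) (h3 : F ≤ J * sqrt Q')
    (h4 : Ne ≤ Ne' * Q) (h5 : F ≤ Ne' * sqrt Q) (h6 : Ne' ≤ J) (h7 : R' ≤ exp (lam * W))
    (hβ : 0 ≤ β) (h8 : exp (lam * W - β) ≤ Q') (h9 : nY ≤ sqrt Q) (hq : Q ≤ q)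
    (h11 : Lam * Ne' ≤ J' * exp (lam * (50001 / 100000 * D)))
    (hK : 2312 * cap ^ 2 * R0 * C ≤ exp κ) (hκ : κ + β + 2 ≤ W / 25) :
    (cap * (1 + (((Ne + Ne' * Q) + F * Q + 17 * (R' * Q * J')) / (J * Q) + 1) / sqrt Q')) *
      (cap * (1 + (min ((Ne + Ne' * Q) + F * Q) (17 * (R' * Q * J')) / (Q * J') + 1) / sqrt Q')) *
      (R0 * (1 + ((Ne + Ne' * Q) / F + 1) / sqrt Q)) *
      (nY * (C * Lam * (min (1 / Q) (Ne' / Ne) + 1 / q))) ≤ exp (-(W / 50)) := by
  have hQ0 : 0 < Q := by linarith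
  have hQ0' : 0 < Q' := by linarith
  have hs : 1 ≤ sqrt Q' := by rw [one_le_sqrt]; exact hQ'
  have hs0 : 0 < sqrt Q' := by linarith
  have hlam0 : 0 < lam := by linarith
  have hl10 : 0 ≤ l1 := le_trans (by positivity) hl1
  have hD0 : 0 ≤ D := le_trans (by positivity) hD
  have hJF : J ≤ F := by
    refine le_trans ?_ h2
    refine le_mul_of_one_le_right hJ.le ?_
    rw [one_le_exp_iff]
    positivity
  have f1 := factor1 (F := F) (Ne := Ne) (Ne' := Ne') hQ0 hQ' hJ hJ'.le hR' h3 h4 h6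
  have f2 := factor2 (Ne := Ne) (Ne' := Ne') hQ0 hQ' hJ' hR' hF hJF h4 h6
  have f3 := factor3 (nY := nY) (C := C) (Lam := Lam) (q := q) (R0 := R0)
    (mu := min (1 / Q) (Ne' / Ne)) hQ hF hR0 hC hLam hnY h4 h5 h9 hq (min_le_left _ _)
    (le_min (by positivity) (by positivity))
  set X1 := 1 + (((Ne + Ne' * Q) + F * Q + 17 * (R' * Q * J')) / (J * Q) + 1) / sqrt Q' with hX1
  set X2 := 1 + (min ((Ne + Ne' * Q) + F * Q) (17 * (R' * Q * J')) / (Q * J') + 1) / sqrt Q'
    with hX2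
  set X3 := (R0 * (1 + ((Ne + Ne' * Q) / F + 1) / sqrt Q)) *
    (nY * (C * Lam * (min (1 / Q) (Ne' / Ne) + 1 / q))) with hX3
  have p1 : 0 ≤ X1 := by positivity
  have p2 : 0 ≤ X2 := by
    have : 0 ≤ min ((Ne + Ne' * Q) + F * Q) (17 * (R' * Q * J')) :=
      le_min (by positivity) (by positivity)
    positivity
  -- the square root
  have g1 : 1 / sqrt Q' ≤ exp (-((lam * W - β) / 2)) := by
    rw [exp_neg, one_div]
    refine inv_anti₀ (exp_pos _) ?_
    apply le_sqrt_of_sq_le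
    rw [← exp_nat_mul]
    refine le_trans (le_of_eq ?_) h8
    congr 1
    push_cast
    ring
  -- the quotients
  have g2 : J' / J ≤ exp (-(lam * D)) := by
    rw [div_le_iff₀ hJ, exp_neg, inv_mul_eq_div, le_div_iff₀ (exp_pos _)]
    exact h1
  have g3 : J' / F ≤ exp (-(lam * (D + l1))) := by
    rw [div_le_iff₀ hF, exp_neg, inv_mul_eq_div, le_div_iff₀ (exp_pos _)]
    calc J' * exp (lam * (D + l1)) = (J' * exp (lam * D)) * exp (lam * l1) := by
          rw [mul_assoc, ← exp_add]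
          congr 2
          ring
      _ ≤ J * exp (lam * l1) := mul_le_mul_of_nonneg_right h1 (exp_pos _).le
      _ ≤ F := h2
  have g4 : R' * J' / F ≤ exp (lam * (W - D - l1)) := by
    calc R' * J' / F = R' * (J' / F) := by ring
      _ ≤ exp (lam * W) * exp (-(lam * (D + l1))) := mul_le_mul h7 g3 (by positivity) (exp_pos _).le
      _ = _ := by
        rw [← exp_add]
        congr 1
        ring
  have g5 : R' * J' / (J * sqrt Q') ≤ exp (lam * (W / 2 - D)) * exp (β / 2) := by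
    calc R' * J' / (J * sqrt Q') = (R' * (J' / J)) * (1 / sqrt Q') := by
          field_simp
      _ ≤ (exp (lam * W) * exp (-(lam * D))) * exp (-((lam * W - β) / 2)) :=
          mul_le_mul (mul_le_mul h7 g2 (by positivity) (exp_pos _).le) g1 (by positivity)
            (by positivity)
      _ = _ := by
        rw [← exp_add, ← exp_add, ← exp_add]
        congr 1
        ring
  have hβ1 : 1 ≤ exp (β / 2) := by
    rw [one_le_exp_iff]
    positivity
  have g6 : 1 + R' * J' / (J * sqrt Q') ≤ exp (β / 2) * (1 + exp (lam * (W / 2 - D))) := by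
    have : exp (β / 2) * (1 + exp (lam * (W / 2 - D))) =
        exp (β / 2) + exp (lam * (W / 2 - D)) * exp (β / 2) := by ring
    rw [this]
    linarith
  have g7 : J' / F + min 1 (R' * J' / F) / sqrt Q' ≤ exp (β / 2) * (exp (-(lam * (D + l1))) +
      min 1 (exp (lam * (W - D - l1))) * exp (-(lam * (W / 2)))) := by
    have e1 : min 1 (R' * J' / F) / sqrt Q' ≤
        min 1 (exp (lam * (W - D - l1))) * (exp (β / 2) * exp (-(lam * (W / 2)))) := by
      rw [div_eq_mul_one_div]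
      refine mul_le_mul (min_le_min_left _ g4) (g1.trans (le_of_eq ?_)) (by positivity)
        (le_min zero_le_one (exp_pos _).le)
      rw [← exp_add]
      congr 1
      ring
    have e2 : J' / F ≤ exp (β / 2) * exp (-(lam * (D + l1))) :=
      g3.trans (le_mul_of_one_le_left (exp_pos _).le hβ1)
    calc _ ≤ exp (β / 2) * exp (-(lam * (D + l1))) +
          min 1 (exp (lam * (W - D - l1))) * (exp (β / 2) * exp (-(lam * (W / 2)))) :=
            add_le_add e2 e1
      _ = _ := by ring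
  -- the product
  have g8 : Lam * Ne' / F ≤ exp (lam * (50001 / 100000 * D)) * (J' / F) := by
    rw [← mul_div_assoc]
    refine div_le_div_of_nonneg_right (h11.trans (le_of_eq (mul_comm _ _))) hF.le
  have hT := four_terms hlam hW hl1 hD
  set T := (1 + exp (lam * (W / 2 - D))) * (exp (lam * (50001 / 100000 * D)) *
      (exp (-(lam * (D + l1))) + min 1 (exp (lam * (W - D - l1))) * exp (-(lam * (W / 2)))))
    with hTdef
  have q1 : 0 ≤ 1 + R' * J' / (J * sqrt Q') := by positivity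
  have q2 : 0 ≤ J' / F + min 1 (R' * J' / F) / sqrt Q' := by
    have : 0 ≤ min 1 (R' * J' / F) := le_min zero_le_one (by positivity)
    positivity
  calc (cap * X1) * (cap * X2) * (R0 * (1 + ((Ne + Ne' * Q) / F + 1) / sqrt Q)) *
      (nY * (C * Lam * (min (1 / Q) (Ne' / Ne) + 1 / q)))
      = (cap * X1) * (cap * X2) * X3 := by rw [hX3]; ring
    _ ≤ (cap * X1) * (cap * X2) * (8 * R0 * C * (Lam * Ne' / F)) :=
        mul_le_mul_of_nonneg_left f3 (by positivity)
    _ ≤ (cap * X1) * (cap * X2) *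
          (8 * R0 * C * (exp (lam * (50001 / 100000 * D)) * (J' / F))) :=
        mul_le_mul_of_nonneg_left (mul_le_mul_of_nonneg_left g8 (by positivity)) (by positivity)
    _ = (8 * cap ^ 2 * R0 * C * exp (lam * (50001 / 100000 * D))) * (X1 * (X2 * (J' / F))) := by
        ring
    _ ≤ (8 * cap ^ 2 * R0 * C * exp (lam * (50001 / 100000 * D))) *
          ((17 * (1 + R' * J' / (J * sqrt Q'))) *
            (17 * (J' / F + min 1 (R' * J' / F) / sqrt Q'))) := by
        refine mul_le_mul_of_nonneg_left ?_ (by positivity)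
        exact mul_le_mul f1 f2 (by positivity) (by positivity)
    _ ≤ (8 * cap ^ 2 * R0 * C * exp (lam * (50001 / 100000 * D))) *
          ((17 * (exp (β / 2) * (1 + exp (lam * (W / 2 - D))))) *
            (17 * (exp (β / 2) * (exp (-(lam * (D + l1))) +
              min 1 (exp (lam * (W - D - l1))) * exp (-(lam * (W / 2))))))) := by
        refine mul_le_mul_of_nonneg_left ?_ (by positivity)
        refine mul_le_mul (mul_le_mul_of_nonneg_left g6 (by norm_num))
          (mul_le_mul_of_nonneg_left g7 (by norm_num)) (by positivity) (by positivity)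
    _ = (2312 * cap ^ 2 * R0 * C) * (exp (β / 2) * exp (β / 2)) * T := by
        rw [hTdef]
        ring
    _ ≤ exp κ * exp β * (4 * exp (-(3 / 50 * W))) := by
        have e1 : exp (β / 2) * exp (β / 2) = exp β := by
          rw [← exp_add]
          congr 1
          ring
        rw [e1]
        have hT0 : 0 ≤ T := by
          rw [hTdef]
          have : 0 ≤ min 1 (exp (lam * (W - D - l1))) := le_min zero_le_one (exp_pos _).le
          positivity
        exact mul_le_mul (mul_le_mul_of_nonneg_right hK (exp_pos _).le) hT hT0 (by positivity)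
    _ ≤ exp κ * exp β * (exp 2 * exp (-(3 / 50 * W))) := by
        have e1 : (4 : ℝ) ≤ exp 2 := by
          have h : (2 : ℝ) ≤ exp 1 := by
            have := Real.exp_one_gt_d9
            linarith
          have : exp 2 = exp 1 * exp 1 := by
            rw [← exp_add]
            norm_num
          rw [this]
          calc (4 : ℝ) = 2 * 2 := by norm_num
            _ ≤ exp 1 * exp 1 := mul_le_mul h h (by norm_num) (by positivity)
        gcongr
    _ = exp (κ + β + (2 + -(3 / 50 * W))) := by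
        rw [exp_add, exp_add, exp_add]
    _ ≤ exp (-(W / 50)) := exp_le_exp.2 (by linarith)

end Pool.Agent.Helper55.T5b
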