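import Pool.Agent.Helper12.T5b.NumS3c
import Pool.Agent.Helper55.T5b.NumT

/-!
# T5b, (S3'): the number of labels times the range of the lower code
-/

set_option autoImplicit false

namespace Pool.Agent.Helper55.T5b

open Finset Pool.Agent.Helper27.T4 Pool.Agent.Helper84.T5b Pool.Agent.Helper37.T5b
  Pool.Agent.Helper30.T5b Pool.Agent.Helper27.T5b
open Pool.Agent.Helper5.ET hiding Key keysOf Mk
open Pool.Agent.Helper3.T5 Pool.Agent.Helper39.T5 Pool.Agent.Helper54.T5b
open Pool.Agent.Helper12.T5b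

variable {m k l' l : ℕ} {o o' : JF → ℕ}

/-- only the family of the era moves -/
theorem aJ_stat (h : SplitDig m k l' l) {x : ℕ} (h1 : l' ≤ x) (h2 : x ≤ ef m k l 0) {i : JF}
    (hi : i ≠ Sum.inl (fam (era (mL m k l)))) :
    aJ m k (sL m k l) x i = aJ m k (sL m k l) l' i := by
  rcases i with f | i
  · exact h.stat x h1 h2 f (fun hc => hi (by rw [hc]))
  · revert hi
    refine Fin.cases (fun _ => ?_) (fun f _ => ?_) i
    · exact h.buf x h1 h2
    · rw [h.nb0 x h1 h2 f, h.nb0 l' le_rfl (h.ll.le.trans h.le) f]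

/-- **labels modulo the front of the lower state, times this front** -/
theorem MSp_Lam_Ne' (h : SplitDig m k l' l) (hd : 2 * (ef m k l' 0 - l') ≤ l - l') :
    (MSp m k l' l o o').Lam * (MSp m k l' l o o').Ne' ≤
      Jn m k (sL m k l) l' * 1000039 ^ ((l - l') / 2) := by
  classical
  set g : JF := Sum.inl (fam (era (mL m k l))) with hg
  set p := pJ k (sL m k l) with hp
  set c := aJ m k (sL m k l) l g with hc
  set c' := aJ m k (sL m k l) l' g with hc'
  set e' := aJ m k (sL m k l) (ef m k l' 0) g with he'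
  have hpos : ∀ i, 0 < p i := fun i => (pJ_prime k _ i).pos
  have hgR : g ≠ Sum.inl (fam (era (mL m k l) + 2)) := fun hc => fam_two_ne _ (Sum.inl.inj hc).symm
  -- the number of labels
  have h1 : (MSp m k l' l o o').Lam = p g ^ ((c + c' - 2 * e') / 2) := by
    have h2 : (MSp m k l' l o o').Lam =
        ∏ i ∈ univ.erase (Sum.inl (fam (era (mL m k l) + 2)) : JF),
        p i ^ ((aJ m k (sL m k l) l i + aJ m k (sL m k l) l' i -
        2 * aJ m k (sL m k l) (ef m k l' 0) i) / 2) := rfl
    rw [h2]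
    refine Finset.prod_eq_single_of_mem g (mem_erase.2 ⟨hgR, mem_univ _⟩) ?_
    intro i _ hi
    have h3 : aJ m k (sL m k l) l i = aJ m k (sL m k l) l' i := aJ_stat h h.ll.le h.le hi
    have h4 : aJ m k (sL m k l) (ef m k l' 0) i = aJ m k (sL m k l) l' i :=
      aJ_stat h h.le' h.ee hi
    have h5 : (aJ m k (sL m k l) l i + aJ m k (sL m k l) l' i -
        2 * aJ m k (sL m k l) (ef m k l' 0) i) / 2 = 0 := by
      rw [h3, h4]
      omega
    rw [h5, pow_zero]
  -- the range of the lower code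
  have h2 : (MSp m k l' l o o').Ne' = Jn m k (sL m k l) l' * p g ^ (e' - c') := by
    rw [MSp_Ne']
    unfold Jn NN
    rw [← Finset.mul_prod_erase univ _ (mem_univ g),
      ← Finset.mul_prod_erase univ (fun i => p i ^ aJ m k (sL m k l) l' i) (mem_univ g)]
    have h3 : ∏ i ∈ univ.erase g, p i ^ aJ m k (sL m k l) (ef m k l' 0) i =
        ∏ i ∈ univ.erase g, p i ^ aJ m k (sL m k l) l' i := by
      refine Finset.prod_congr rfl (fun i hi => ?_)
      rw [aJ_stat h h.le' h.ee (mem_erase.1 hi).1]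
    have h4 : c' ≤ e' := Pool.Agent.Helper54.T5b.aJ_mono h.le' g
    have h5 : p g ^ e' = p g ^ c' * p g ^ (e' - c') := by
      rw [← pow_add]
      congr 1
      omega
    rw [h3]
    show p g ^ e' * _ = p g ^ c' * _ * _
    rw [h5]
    ring
  rw [h1, h2]
  have h3 : e' ≤ c' + (ef m k l' 0 - l') := by
    rw [he', hc', hg, aJ_inl, aJ_inl]
    exact ct_sub_le _ h.le'
  have h4 : c ≤ c' + (l - l') := by
    rw [hc, hc', hg, aJ_inl, aJ_inl]
    exact ct_sub_le _ h.ll.le
  have h5 : c' ≤ e' := Pool.Agent.Helper54.T5b.aJ_mono h.le' g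
  have h6 : (c + c' - 2 * e') / 2 + (e' - c') ≤ (l - l') / 2 := by omega
  have h7 : p g ≤ 1000039 := by
    rw [hp, hg, pJ_inl]
    exact (pr_lt_buf _).le
  calc p g ^ ((c + c' - 2 * e') / 2) * (Jn m k (sL m k l) l' * p g ^ (e' - c'))
      = Jn m k (sL m k l) l' * p g ^ ((c + c' - 2 * e') / 2 + (e' - c')) := by
        rw [pow_add]
        ring
    _ ≤ Jn m k (sL m k l) l' * 1000039 ^ ((l - l') / 2) := by
        refine Nat.mul_le_mul_left _ ?_
        exact (Nat.pow_le_pow_left h7 _).trans (Nat.pow_le_pow_right (by norm_num) h6)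

/-- the same in real numbers -/
theorem Lam_Ne_le (h : SplitDig m k l' l) (hd : 2 * (ef m k l' 0 - l') ≤ l - l') :
    (((MSp m k l' l o o').Lam * (MSp m k l' l o o').Ne' : ℕ) : ℝ) ≤
      (Jn m k (sL m k l) l' : ℝ) * 1000039 ^ ((l - l') / 2) := by
  exact_mod_cast MSp_Lam_Ne' (o := o) (o' := o') h hd

/-- the prime `1000039` against `10 ^ 6` -/
theorem pow_1000039_le (D : ℕ) : (1000039 : ℝ) ^ (D / 2) ≤
    Real.exp (Real.log (10 ^ 6) * (50001 / 100000 * (D : ℝ))) := by
  set lam := Real.log ((10 : ℝ) ^ 6) with hlam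
  have hlam13 : 13 ≤ lam := by
    rw [hlam, Real.log_pow]
    have h1 : (22 / 10 : ℝ) ≤ Real.log 10 := by
      have e1 : Real.log 10 = Real.log 2 + Real.log 5 := by
        rw [← Real.log_mul (by norm_num) (by norm_num)]
        norm_num
      have e2 : Real.log 5 = Real.log (5 / 4) + 2 * Real.log 2 := by
        have : (5 : ℝ) = 5 / 4 * (2 * 2) := by norm_num
        conv_lhs => rw [this, Real.log_mul (by norm_num) (by norm_num),
          Real.log_mul (by norm_num) (by norm_num)]
        ring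
      have e3 : (1 / 5 : ℝ) ≤ Real.log (5 / 4) := by
        have := Real.one_sub_inv_le_log_of_pos (show (0 : ℝ) < 5 / 4 by norm_num)
        linarith
      have e4 := Real.log_two_gt_d9
      rw [e1, e2]
      linarith
    push_cast
    linarith
  have hlam0 : 0 < lam := by linarith
  have h2 : (1000039 : ℝ) ≤ Real.exp (lam * (1 + 1 / 200000)) := by
    have h3 : (1000039 : ℝ) = 10 ^ 6 * (1 + 39 / 1000000) := by norm_num
    have h4 : Real.exp (lam * (1 + 1 / 200000)) = 10 ^ 6 * Real.exp (lam / 200000) := by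
      have : lam * (1 + 1 / 200000) = lam + lam / 200000 := by ring
      rw [this, Real.exp_add, hlam, Real.exp_log (by positivity)]
    rw [h3, h4]
    refine mul_le_mul_of_nonneg_left ?_ (by positivity)
    have := Real.add_one_le_exp (lam / 200000)
    linarith
  calc (1000039 : ℝ) ^ (D / 2)
      ≤ Real.exp (lam * (1 + 1 / 200000)) ^ (D / 2) := by gcongr
    _ = Real.exp (lam * (1 + 1 / 200000) * ((D / 2 : ℕ) : ℝ)) := by
        rw [mul_comm (lam * (1 + 1 / 200000)), Real.exp_nat_mul]
    _ ≤ _ := by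
        apply Real.exp_le_exp.2
        have h5 : ((D / 2 : ℕ) : ℝ) ≤ (D : ℝ) / 2 := by
          have h6 := Nat.cast_div_le (α := ℝ) (m := D) (n := 2)
          push_cast at h6
          exact h6
        have h8 : (1 + 1 / 200000) * ((D / 2 : ℕ) : ℝ) ≤ 50001 / 100000 * (D : ℝ) := by
          have : (0 : ℝ) ≤ D := Nat.cast_nonneg _
          linarith
        rw [mul_assoc]
        exact mul_le_mul_of_nonneg_left h8 hlam0.le

end Pool.Agent.Helper55.T5b
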